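import Pool.Agent.U4.DG.Fin
import Pool.Agent.Y771.NF.Delta
import Pool.Agent.Y771.NF.Lam

/-!
# The derivatives of the Ramanujan Xi function: almost all zeros are real and equally spaced

`Ξ_Δ(z) = Λ(6 + i z)`, `Λ(s) = (2π)^(-s) Γ(s) L(s, Δ)`. If all zeros of `Ξ_Δ` are real (the Riemann hypothesis for
`L(s, Δ)`), the same is true of all derivatives `Λ^(n)` and the line `Re s = 6`, and then the distances of the zeros even
out as `n` grows (Farmer and Rhoades). The mean distance of the zeros at height `y` is `π / log y`.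

We prove unconditionally, for all `ε > 0`, `A`: there are constants `c, C > 0` such that for all `T ≥ 2`
and ALL orders `n ≤ A log T` at most the proportion `C exp (-c n)` of the zeros of `Λ^(n)` with imaginary part in
`(T, 2T]` are irregular, where a zero `s` is called regular if it is simple, on the line `Re s = 6`, and followed by a
simple zero on the line at the distance `(1 + O(ε)) π / log (Im s)`, with no zeros in between. (That all zeros up to
`exp (κ n)`, `κ < 2`, are regular is `EqualSpacing`, MP_cd509c_nt; here `n` may be any function of `T`.)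

Proof: at all heights except for a set of proportion `exp (-c n)` the function `Λ` looks at the scale `n / log T` like
`exp (z log T)` plus its reflection (mollified second moment near the line, shifted convolution sums by Jutila's circle
method; project GD2 of helper671, modules `Pool.Agent.Y671` and imports, and `Pool.Agent.Y771.NF`). New here
(`Pool.Agent.U4.DG`, with `Pool.Agent.U4.UH`) are the gaps: `Λ^(n)` is on the line the real part of one half of Cauchy's
integral over a circle of radius of order `n / log T`, and by the saddle point method the phase of this half rotates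
with constant speed.
-/

set_option autoImplicit false

namespace Pool.Agent.Results.MP_cd509c_nt.DerivativeSpacings

open Complex

/-- `Δ(i y) = e^(-2πy) ∏_{n ≥ 1} (1 - e^(-2πny))^24`, the modular discriminant on the imaginary axis
(the function of the frozen statement S18517). -/
noncomputable def delta (y : ℝ) : ℝ :=
  Real.exp (-2 * Real.pi * y) * ∏' n : ℕ, (1 - Real.exp (-2 * Real.pi * ((n : ℝ) + 1) * y)) ^ 24

/-- The completed L-function `Λ(s) = ∫_0^∞ Δ(i y) y^(s-1) dy = (2π)^(-s) Γ(s) L(s, Δ)`, an entire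
function with `Λ(12 - s) = Λ(s)`; `Ξ_Δ(z) = Λ(6 + i z)`. -/
noncomputable def Lam (s : ℂ) : ℂ := mellin (fun y : ℝ => ((delta y : ℝ) : ℂ)) s

/-- The zeros of the `n`-th derivative of `Λ` with imaginary part in `(T, 2T]`. -/
def Zer (n : ℕ) (T : ℝ) : Set ℂ := {s | iteratedDeriv n Lam s = 0 ∧ T < s.im ∧ s.im ≤ 2 * T}

/-- The zero `s` of the `n`-th derivative is regular: it is simple and on the line `Re s = 6`, and the next zero above
it is again simple and on the line, at a distance `g` with `|g log (Im s) / π - 1| ≤ ε`; `s` and `s + i g` are the only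
zeros with imaginary part in `[Im s, Im s + g]`. -/
def Regular (ε : ℝ) (n : ℕ) (s : ℂ) : Prop :=
  s.re = 6 ∧ iteratedDeriv (n + 1) Lam s ≠ 0 ∧ ∃ g : ℝ, 0 < g ∧ |g * Real.log s.im / Real.pi - 1| ≤ ε ∧
    iteratedDeriv n Lam (s + g * I) = 0 ∧ iteratedDeriv (n + 1) Lam (s + g * I) ≠ 0 ∧
    ∀ z : ℂ, iteratedDeriv n Lam z = 0 → s.im ≤ z.im → z.im ≤ s.im + g → z = s ∨ z = s + g * I

/-- The zeros which are not regular. -/
def Irregular (ε : ℝ) (n : ℕ) (T : ℝ) : Set ℂ := {s | s ∈ Zer n T ∧ ¬ Regular ε n s}

/-- The number of points of `B`, each counted with its multiplicity as a zero of `Λ^(n)`. -/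
noncomputable def num (n : ℕ) (B : Set ℂ) : ℕ := ∑ᶠ s ∈ B, analyticOrderNatAt (iteratedDeriv n Lam) s

/-- **Main theorem.** For all `ε > 0` and `A` there are `c, C > 0` such that for all `n` and all `T ≥ 2` with
`n ≤ A log T` at most the proportion `C exp (-c n)` of the zeros of `Λ^(n)` with imaginary part in `(T, 2T]`, counted
with multiplicity, are irregular, i.e. off the line `Re s = 6`, or multiple, or not followed by a simple zero on the line
at the distance `(1 + O(ε)) π / log (Im s)` without zeros in between; and the number of the irregular zeros is at most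
`C exp (-c n) T log T`. -/
theorem result :
    (∀ (n : ℕ) (T : ℝ), 0 ≤ T → (Zer n T).Finite) ∧
    ∀ ε A : ℝ, 0 < ε → ∃ c C : ℝ, 0 < c ∧ 0 < C ∧ ∀ (n : ℕ) (T : ℝ), 2 ≤ T → (n : ℝ) ≤ A * Real.log T →
      (num n (Irregular ε n T) : ℝ) ≤ C * Real.exp (-(c * n)) * num n (Zer n T) ∧
      (num n (Irregular ε n T) : ℝ) ≤ C * Real.exp (-(c * n)) * T * Real.log T := by
  obtain ⟨u, H, Z, hu, hGG, hst, hA, hL, hH⟩ := Pool.Agent.Y771.NF.all_of (N := 1) (k := 12) (by norm_num)
    Pool.Agent.Y771.NF.newf_delta
  have h1 : Pool.Agent.Y771.NF.Lam (N := 1) (k := 12) Pool.Agent.W97.TW.deltaForm = Lam :=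
    funext fun s => Pool.Agent.Y771.NF.Lam_delta s
  have e1 : Pool.Agent.Y771.NF.Xf (N := 1) (k := 12) Pool.Agent.W97.TW.deltaForm u =
      fun z => u * Lam (((6 : ℝ) : ℂ) + z) := by
    funext z
    have h : (((12 : ℕ) : ℂ)) / 2 = ((6 : ℝ) : ℂ) := by norm_num
    show u * Pool.Agent.Y771.NF.Lam (N := 1) (k := 12) Pool.Agent.W97.TW.deltaForm ((((12 : ℕ) : ℂ)) / 2 + z) = _
    rw [h1, h]
  have hG := Pool.Agent.Y693.GL.gy_one hGG
  rw [e1] at hG hst hA hL hH
  obtain ⟨h2, h3⟩ := Pool.Agent.U4.DG.deriv_spacing (κ := 1) (by norm_num) hu hG hA hL hst hH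
  refine ⟨h2, fun ε A hε => ?_⟩
  obtain ⟨c, C, hc, hC, h4⟩ := h3 ε A hε
  refine ⟨c, C, hc, hC, fun n T hT hn => ?_⟩
  have hI : Irregular ε n T = Pool.Agent.U4.DG.IW Lam 1 ε 6 n T := by
    ext s
    simp only [Irregular, Regular, Zer, Pool.Agent.U4.DG.IW, Pool.Agent.U4.DG.RegL, Pool.Agent.U4.DG.ZW, one_mul]
  rw [hI]
  exact h4 n T hT hn

end Pool.Agent.Results.MP_cd509c_nt.DerivativeSpacings
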