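import Pool.Agent.U4.UH.Del

/-!
# Equal spacing of the zeros of the derivatives of the Ramanujan Xi function up to `exp (κ n)`, `κ < 2`

`Ξ_Δ(z) = Λ(6 + i z)` is the Ramanujan Xi function.  We prove: for every `κ < 2` the real zeros of its
`n`-th derivative in `|x| ≤ exp (κ n)` are equally spaced as `n → ∞`, uniformly in the whole range: the
distance from a zero `x` to the next zero is `(1 + o(1)) π / log (|x| + n)`, and from every point `x` of
the range there is a zero at distance at most `(1 + o(1)) π / log (|x| + n)` to the right.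

Proof: modules `Pool.Agent.U4.UH` (the phase of the half Cauchy integral at the saddle point; a version
uniform in all L-functions is `Pool.Agent.U4.UH.main_gap`), on top of the starting modules
`Pool.Agent.H986R2.K4` and `Pool.Agent.Y771.NF`.
-/

set_option autoImplicit false

open Complex

namespace Pool.Agent.Results.MP_cd509c_nt.EqualSpacing

/-- `Δ(i y) = e^(-2πy) ∏_{n ≥ 1} (1 - e^(-2πny))^24`, the modular discriminant on the imaginary axis
(the function of the frozen statement S18517). -/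
noncomputable def delta (y : ℝ) : ℝ :=
  Real.exp (-2 * Real.pi * y) * ∏' n : ℕ, (1 - Real.exp (-2 * Real.pi * ((n : ℝ) + 1) * y)) ^ 24

/-- The completed L-function `Λ(s) = ∫_0^∞ Δ(i y) y^(s-1) dy = (2π)^(-s) Γ(s) L(s, Δ)`, an entire
function with `Λ(12 - s) = Λ(s)`. -/
noncomputable def Lam (s : ℂ) : ℂ := mellin (fun y : ℝ => ((delta y : ℝ) : ℂ)) s

/-- The Ramanujan Xi function `Ξ_Δ(z) = Λ(6 + i z)`. -/
noncomputable def Xi (z : ℂ) : ℂ := Lam (6 + Complex.I * z)

/-- **Main theorem.**  For all `κ < 2` and `ε > 0` there is `N` such that for all `n ≥ N` and all real `x` with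
`|x| ≤ exp (κ n)`: (1) the `n`-th derivative of `Ξ_Δ` has a real zero in
`[x, x + (1 + ε) π / log (|x| + n)]`; (2) if `x` is a zero of it, then the distance from `x` to the next
real zero is between `(1 - ε) π / log (|x| + n)` and `(1 + ε) π / log (|x| + n)`. -/
theorem result : ∀ κ ε : ℝ, κ < 2 → 0 < ε → ∃ N : ℕ, ∀ n : ℕ, N ≤ n → ∀ x : ℝ,
    |x| ≤ Real.exp (κ * n) →
      (∃ x' : ℝ, x ≤ x' ∧ (x' - x) * Real.log (|x| + n) / Real.pi ≤ 1 + ε ∧
        iteratedDeriv n Xi x' = 0) ∧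
      (iteratedDeriv n Xi x = 0 → ∃ x' : ℝ, x < x' ∧ iteratedDeriv n Xi x' = 0 ∧
        (∀ v : ℝ, x < v → v < x' → iteratedDeriv n Xi v ≠ 0) ∧
        |(x' - x) * Real.log (|x| + n) / Real.pi - 1| ≤ ε) := by
  intro κ ε hκ hε
  have hLam : Pool.Agent.U4.UH.LamD = Lam := by
    funext s
    unfold Pool.Agent.U4.UH.LamD
    rw [Pool.Agent.Y771.NF.Lam_delta]
    rfl
  have hdiff : Differentiable ℂ Lam := by
    rw [← hLam]
    exact Pool.Agent.U4.UH.LamD_diff
  have hXi : ∀ (k : ℕ) (v : ℝ), iteratedDeriv k Xi v = 0 ↔ iteratedDeriv k Lam (6 + v * I) = 0 := by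
    intro k v
    have h1 : iteratedDeriv k Xi v = I ^ k * iteratedDeriv k Lam (6 + I * v) :=
      Pool.Agent.H986R2.K4.WinAux.scale hdiff 6 I k v
    rw [h1, mul_comm I]
    constructor
    · intro h
      exact (mul_eq_zero.1 h).resolve_left (pow_ne_zero _ I_ne_zero)
    · intro h
      rw [h, mul_zero]
  obtain ⟨N, H⟩ := Pool.Agent.U4.UH.delta_gap hκ hε
  rw [hLam] at H
  refine ⟨N, fun n hn x hx => ?_⟩
  obtain ⟨⟨y, h1, h2, h3⟩, h4⟩ := H n hn x hx
  refine ⟨⟨y, h1, h2, (hXi n y).2 h3⟩, fun hz => ?_⟩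
  obtain ⟨x', h5, h6, h7, h8⟩ := h4 ((hXi n x).1 hz)
  exact ⟨x', h5, (hXi n x').2 h6, fun v hv1 hv2 hv => h7 v hv1 hv2 ((hXi n v).1 hv), h8⟩

end Pool.Agent.Results.MP_cd509c_nt.EqualSpacing
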