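import Pool.Agent.U156.SJ.Dl

/-!
# Jensen polynomials of the Ramanujan Xi function: the constant in the range of hyperbolicity

Put `F(z) = Λ(6 + z) = ∑ γ(k) z^(2k) / k!`, where `Λ(s) = (2π)^(-s) Γ(s) L(s, Δ)`.  We prove that for every `κ > 1/4`
the Jensen polynomials `J^{d,n}(X) = ∑ binom(d,j) γ(n+j) X^j` have degree `d` and only real negative zeros for all
sufficiently large `n` and all `d ≤ exp(n / κ)`; so for all `d ≤ exp((4 - ε) n)`.  All zeros of `Ξ_Δ` are real if and
only if the other `J^{d,n}` have only real nonpositive zeros (or vanish).  If all zeros of `Ξ_Δ` satisfy `|Im z| ≤ t`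
then the same is true for every positive `κ > t / 2`, in particular for every `κ > 0` if all zeros of `Ξ_Δ` are real.

The starting file `Pool.Agent.Results.MP_cd509c_nt.JensenPolynomials` proves that `J^{d,n}` has only real zeros for
`n ≥ C log (d + 1)` with some constant `C` which is not specified.  The constants are found by following the zeros of
the derivatives of `F` (`Pool.Agent.U156.SJ`, after the case of the Riemann zeta function in `Pool.Agent.U762.JF` by
helper762 and `Pool.Agent.U4.JC` by helper4, and the generic starting modules `Pool.Agent.W355.GJ`,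
`Pool.Agent.W355.LC`, `Pool.Agent.H471R3.GJ`); the instance `Δ` is in the starting modules `Pool.Agent.Y771.NF` and
`Pool.Agent.N831.LP`.
-/

set_option autoImplicit false

namespace Pool.Agent.Results.MP_cd509c_nt.JensenSharpRange

open Polynomial

/-- `Δ(i y) = e^(-2πy) ∏_{n ≥ 1} (1 - e^(-2πny))^24`, the modular discriminant on the imaginary axis
(the function of the frozen statement S18517). -/
noncomputable def delta (y : ℝ) : ℝ :=
  Real.exp (-2 * Real.pi * y) * ∏' n : ℕ, (1 - Real.exp (-2 * Real.pi * ((n : ℝ) + 1) * y)) ^ 24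

/-- The completed L-function `Λ(s) = ∫_0^∞ Δ(i y) y^(s-1) dy = (2π)^(-s) Γ(s) L(s, Δ)`, an entire
function with `Λ(12 - s) = Λ(s)`. -/
noncomputable def Lam (s : ℂ) : ℂ := mellin (fun y : ℝ => ((delta y : ℝ) : ℂ)) s

/-- The Ramanujan Xi function `Ξ_Δ(z) = Λ(6 + i z)`. -/
noncomputable def Xi (z : ℂ) : ℂ := Lam (6 + Complex.I * z)

/-- The coefficients `γ(k) = k! / (2k)! * Λ^(2k)(6)`, i.e. `Λ(6 + z) = ∑ γ(k) z^(2k) / k!` (these
derivatives are real). -/
noncomputable def gamma (k : ℕ) : ℝ :=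
  (k.factorial : ℝ) / ((2 * k).factorial : ℝ) * (iteratedDeriv (2 * k) (fun z : ℂ => Lam (6 + z)) 0).re

/-- The Jensen polynomial `J^{d,n}(X) = ∑_{j ≤ d} binom(d,j) γ(n+j) X^j` of degree `d` and shift `n`. -/
noncomputable def jensen (d n : ℕ) : ℝ[X] :=
  ∑ j ∈ Finset.range (d + 1), C ((d.choose j : ℝ) * gamma (n + j)) * X ^ j

/-- The polynomial has degree `d` and only real negative zeros. -/
def Negative (d : ℕ) (P : ℝ[X]) : Prop := P.natDegree = d ∧ ∀ z : ℂ, aeval z P = 0 → z.im = 0 ∧ z.re < 0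

/-- The polynomial vanishes or has only real nonpositive zeros. -/
def Nonpositive (P : ℝ[X]) : Prop := P = 0 ∨ ∀ z : ℂ, aeval z P = 0 → z.im = 0 ∧ z.re ≤ 0

/-- Q1 (the frozen statement S18517): every zero of the Ramanujan Xi function is real. -/
def AllZerosReal : Prop := ∀ z : ℂ, Xi z = 0 → z.im = 0

/-- The statement for `κ`: for `n ≥ N` and `κ log d ≤ n` (that is, `d ≤ exp(n / κ)`) the Jensen polynomials `J^{d,n}`
have degree `d` and only real negative zeros, and all zeros of `Ξ_Δ` are real if and only if the others have only real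
nonpositive zeros (or vanish). -/
def Range (κ : ℝ) : Prop := ∃ N : ℕ,
  (∀ n d : ℕ, N ≤ n → 1 ≤ d → κ * Real.log d ≤ n → Negative d (jensen d n)) ∧
  (AllZerosReal ↔
    ∀ n d : ℕ, 1 ≤ d → (n < N ∨ (n : ℝ) < κ * Real.log d) → Nonpositive (jensen d n))

/-- **Main theorem.** -/
theorem result :
    (∀ κ : ℝ, 1 / 4 < κ → Range κ) ∧
    (∀ t κ : ℝ, 0 ≤ t → (∀ z : ℂ, Xi z = 0 → |z.im| ≤ t) → 0 < κ → t / 2 < κ → Range κ) := by
  have hL : ∀ s : ℂ, Pool.Agent.Y771.NF.Lam (N := 1) (k := 12) Pool.Agent.W97.TW.deltaForm s = Lam s :=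
    Pool.Agent.Y771.NF.Lam_delta
  obtain ⟨k4, r, -, hr, k6, k7⟩ := Pool.Agent.U156.SJ.newr_final (N := 1) (k := 12) (ε := 1)
    (f := Pool.Agent.W97.TW.deltaForm) (by norm_num) Pool.Agent.Y771.NF.newf_delta
  have hr0 := hr rfl
  subst hr0
  have h6 : ((12 : ℕ) : ℂ) / 2 = 6 := by norm_num
  have h6r : ((12 : ℕ) : ℝ) / 2 = 6 := by norm_num
  simp only [hL, h6, h6r] at k4 k6 k7
  have hJ : ∀ d n : ℕ, Pool.Agent.W355.GJ.Crit.jensenP 0 (fun z : ℂ => Lam (6 + z)) d n = jensen d n := fun _ _ => rfl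
  have hz : ∀ s : ℂ, Lam s = 0 ↔ Xi (-Complex.I * (s - 6)) = 0 := by
    intro s
    unfold Xi
    have : 6 + Complex.I * (-Complex.I * (s - 6)) = s := by
      have hI := Complex.I_mul_I
      linear_combination (-(s - 6)) * hI
    rw [this]
  have him : ∀ s : ℂ, (-Complex.I * (s - 6)).im = 6 - s.re := by
    intro s
    simp [Complex.mul_im]
  have hRH : AllZerosReal ↔ ∀ s : ℂ, Lam s = 0 → s.re = 6 := by
    constructor
    · intro h s hs
      have h3 := h _ ((hz s).1 hs)
      rw [him] at h3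
      linarith
    · intro h z hz
      have h3 := h (6 + Complex.I * z) hz
      have h4 : (6 + Complex.I * z).re = 6 - z.im := by
        simp [Complex.mul_re]
        ring
      rw [h4] at h3
      linarith
  have hmain : ∀ t κ : ℝ, 0 ≤ t → (∀ z : ℂ, Xi z = 0 → |z.im| ≤ t) → 0 < κ → t / 2 < κ → Range κ := by
    intro t κ ht h hκ0 hκ
    have h1 := Pool.Agent.U156.SJ.crit_range k7 (k6 t κ ht (fun s hs => ?_) hκ0 hκ)
    · unfold Range
      rw [hRH]
      exact h1
    · have h3 := h _ ((hz s).1 hs)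
      rw [him] at h3
      linarith [(abs_le.1 h3).1]
  refine ⟨fun κ hκ => hmain (1 / 2) κ (by norm_num) (fun z hz' => ?_) (by linarith) (by linarith), hmain⟩
  have h3 := k4 (6 + Complex.I * z) hz'
  have h4 : (6 + Complex.I * z).re - 6 = -z.im := by
    simp [Complex.mul_re]
  rw [h4, abs_neg] at h3
  exact h3

end Pool.Agent.Results.MP_cd509c_nt.JensenSharpRange
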