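import Pool.Agent.U742.LA.Fi
import Pool.Agent.N831.LP.L

/-!
# MP_cd509c_nt: the asymptotic law for the Li coefficients of the Ramanujan L-function

The Ramanujan Xi function is `Ξ_Δ(z) = Λ(6 + i z)`, `Λ(s) = (2π)^(-s) Γ(s) L(s, Δ)`; it is conjectured that all its zeros
are real. The Li coefficients of `Λ` with base point `a` are the numbers
`li a n = ∑_ρ Re (1 - ((ρ - a) / (ρ + a - 12))^n)` (`ρ` the zeros of `Λ`, with multiplicity).

We prove the asymptotic formula `li a n = (2 + o(1)) n a log (n a)` as `a → ∞`, uniformly for `1 ≤ n ≤ κ a log a`,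
for every `κ < 2`, without any hypothesis. The range is the best possible one that does not depend on a zero-free
half-plane: the formula holds for some `κ > 2` if and only if all zeros of `Ξ_Δ` are in a strip `|Im z| ≤ d` with
`d < 1/2`. And it holds uniformly for all `n ≥ 1` if and only if all zeros of `Ξ_Δ` are real.

Proof: the modules `Pool.Agent.U742.LA`. The zeros are counted by the argument principle (Riemann-von Mangoldt formula
for completed L-functions), the sum over the zeros, moved to the line, is compared with an integral, and the terms of the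
zeros off the line are bounded by the method and the density theorem of the starting modules `Pool.Agent.N831.LI`,
`Pool.Agent.N831.LP`, which prove the lower bound `c n a log a` (starting result `LiThresholdTwo`).
-/

set_option autoImplicit false

open Filter
open scoped ComplexConjugate

namespace Pool.Agent.Results.MP_cd509c_nt.LiAsymptoticLaw

/-- `Δ(i y) = e^(-2πy) ∏_{n ≥ 1} (1 - e^(-2πny))^24`, the modular discriminant on the imaginary axis
(the function of the frozen statement S18517). -/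
noncomputable def delta (y : ℝ) : ℝ :=
  Real.exp (-2 * Real.pi * y) * ∏' n : ℕ, (1 - Real.exp (-2 * Real.pi * ((n : ℝ) + 1) * y)) ^ 24

/-- The completed L-function `Λ(s) = ∫_0^∞ Δ(i y) y^(s-1) dy = (2π)^(-s) Γ(s) L(s, Δ)`, an entire
function with `Λ(12 - s) = Λ(s)`. -/
noncomputable def Lam (s : ℂ) : ℂ := mellin (fun y : ℝ => ((delta y : ℝ) : ℂ)) s

/-- The Ramanujan Xi function `Ξ_Δ(z) = Λ(6 + i z)`. -/
noncomputable def Xi (z : ℂ) : ℂ := Lam (6 + Complex.I * z)

/-- The term of the zero `ρ` in the Li coefficient with base point `a`, with the multiplicity of `ρ`. -/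
noncomputable def term (a : ℝ) (n : ℕ) (ρ : ℂ) : ℝ :=
  (analyticOrderNatAt Lam ρ : ℝ) * (1 - ((ρ - a) / (ρ + a - 12)) ^ n).re

/-- The Li coefficient with base point `a`: the sum over the zeros `ρ` of `Λ`, with multiplicity, of
`Re (1 - ((ρ - a) / (ρ + a - 12)) ^ n)`. -/
noncomputable def li (a : ℝ) (n : ℕ) : ℝ := ∑' ρ : {ρ : ℂ // Lam ρ = 0}, term a n ρ

/-- The law `li a n ~ 2 n a log (n a)` as `a → ∞`, uniformly for `1 ≤ n ≤ κ a log a`. -/
def Law (κ : ℝ) : Prop := ∀ ε : ℝ, 0 < ε → ∀ᶠ a : ℝ in atTop, ∀ n : ℕ, 1 ≤ n → (n : ℝ) ≤ κ * a * Real.log a →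
  |li a n - 2 * (n * a * Real.log (n * a))| ≤ ε * (n * a * Real.log (n * a))

/-- The law `li a n ~ 2 n a log (n a)` as `a → ∞`, uniformly for all `n ≥ 1`. -/
def LawAll : Prop := ∀ ε : ℝ, 0 < ε → ∀ᶠ a : ℝ in atTop, ∀ n : ℕ, 1 ≤ n →
  |li a n - 2 * (n * a * Real.log (n * a))| ≤ ε * (n * a * Real.log (n * a))

/-- All zeros of `Ξ_Δ` are in the strip `|Im z| ≤ d`. -/
def Strip (d : ℝ) : Prop := ∀ z : ℂ, Xi z = 0 → |z.im| ≤ d

lemma Xi_eq (s : ℂ) : Xi (-(Complex.I * (s - 6))) = Lam s := by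
  unfold Xi
  congr 1
  rw [mul_neg, ← mul_assoc, Complex.I_mul_I]
  ring

lemma im_eq (s : ℂ) : (-(Complex.I * (s - 6))).im = -(s.re - 6) := by
  simp

/-- `Λ` is real on the real axis. -/
lemma Lam_conj (s : ℂ) : Lam (conj s) = conj (Lam s) := by
  unfold Lam mellin
  rw [← integral_conj]
  refine MeasureTheory.setIntegral_congr_fun measurableSet_Ioi fun t ht => ?_
  have ht' : (0 : ℝ) < t := ht
  have h1 : (t : ℂ) ^ (conj s - 1) = conj ((t : ℂ) ^ (s - 1)) := by
    have h2 := Complex.cpow_conj (t : ℂ) (s - 1) (by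
      rw [Complex.arg_ofReal_of_nonneg ht'.le]
      exact Real.pi_ne_zero.symm)
    rw [map_sub, map_one, Complex.conj_ofReal] at h2
    exact h2
  show (t : ℂ) ^ (conj s - 1) • ((delta t : ℝ) : ℂ) = conj ((t : ℂ) ^ (s - 1) • ((delta t : ℝ) : ℂ))
  rw [h1, smul_eq_mul, smul_eq_mul, map_mul, Complex.conj_ofReal]

open Pool.Agent.N831.LP Pool.Agent.U742.LA in
/-- **Main theorem.** (0) The sums `li a n` converge absolutely for `a ≥ 8`. (1) `li a n ~ 2 n a log (n a)` uniformly
for `1 ≤ n ≤ κ a log a`, for every `κ < 2`. (2) If all zeros of `Ξ_Δ` satisfy `|Im z| ≤ d`, `0 < d < 1/2`, then this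
holds for every `κ < 1/(2 d (1 - d))`, a number larger than `2`. (3) It holds for some `κ > 2` if and only if all zeros
of `Ξ_Δ` satisfy `|Im z| ≤ d` for some `d < 1/2`. (4) It holds uniformly for all `n ≥ 1` if and only if all zeros of
`Ξ_Δ` are real. -/
theorem result :
    (∀ a : ℝ, 8 ≤ a → ∀ n : ℕ, Summable fun ρ : {ρ : ℂ // Lam ρ = 0} => term a n ρ) ∧
      (∀ κ : ℝ, κ < 2 → Law κ) ∧
      (∀ d : ℝ, 0 < d → d < 1 / 2 → Strip d → ∀ κ : ℝ, κ < 1 / (2 * d * (1 - d)) → Law κ) ∧
      ((∃ κ : ℝ, 2 < κ ∧ Law κ) ↔ ∃ d : ℝ, d < 1 / 2 ∧ Strip d) ∧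
      ((∀ z : ℂ, Xi z = 0 → z.im = 0) ↔ LawAll) := by
  have hLam : ∀ s, Pool.Agent.Y771.NF.Lam (N := 1) (k := 12) Pool.Agent.W97.TW.deltaForm s = Lam s := fun s => by
    rw [Pool.Agent.Y771.NF.Lam_delta]
    rfl
  obtain ⟨v, hv, hP⟩ : ∃ v : ℂ, v ≠ 0 ∧ P2 1 (fun z => v * Lam (((6 : ℝ) : ℂ) + z)) := by
    obtain ⟨v, hv, hP⟩ := p2_mellin (N := 1) (k := 12) (by norm_num) Pool.Agent.Y771.NF.newf_delta
    refine ⟨v, hv, ?_⟩
    have e : (((12 : ℕ) : ℂ)) / 2 = ((6 : ℝ) : ℂ) := by push_cast; norm_num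
    simp only [hLam, e] at hP
    exact hP
  have hκ : (1 : ℝ) / 2 ≤ 1 := by norm_num
  have e2 : (2 : ℂ) * ((6 : ℝ) : ℂ) = 12 := by push_cast; norm_num
  -- the count
  obtain ⟨H, Z, hG⟩ := hP.pl.gy
  have hcnt := cnt_of hG.cg hP.pl.strip
  have hreal : ∀ z, oX (fun z => v * Lam (((6 : ℝ) : ℂ) + z)) (conj z) = oX (fun z => v * Lam (((6 : ℝ) : ℂ) + z)) z := by
    intro z
    unfold oX
    rw [← dl_orderNat hP.pl.diff]
    congr 1
    refine order_const_mul hP.pl.diff (c := conj v / v) (div_ne_zero ((map_ne_zero _).2 hv) hv) (fun w => ?_) z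
    unfold dl
    rw [map_mul]
    have e3 : ((6 : ℝ) : ℂ) + conj w = conj (((6 : ℝ) : ℂ) + w) := by rw [map_add, Complex.conj_ofReal]
    rw [e3, Lam_conj, Complex.conj_conj]
    field_simp
  have hR := rm_ms hκ hP hcnt hreal
  have h0 := allLaw hκ hv hP hR (L := li) fun a n => by
    rw [e2]
    rfl
  rw [mul_one] at h0
  obtain ⟨h1, h2, h3, h4⟩ := h0
  -- reflection
  have hsym : ∀ s : ℂ, Lam s = 0 → ∃ s', Lam s' = 0 ∧ s'.re = 12 - s.re := by
    intro s hs
    have k1 := hP.pl.sy.symm (s - ((6 : ℝ) : ℂ))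
    simp only [add_sub_cancel, hs, mul_zero, map_zero] at k1
    refine ⟨_, (mul_eq_zero.1 k1).resolve_left hv, ?_⟩
    simp
    ring
  have hre : ∀ z : ℂ, (6 + Complex.I * z).re = 6 - z.im := by
    intro z
    simp
    ring
  have hstrip : ∀ d : ℝ, Strip d ↔ ZeroFree Lam (6 + d) := by
    intro d
    constructor
    · intro h s hs hs0
      have k1 := h (-(Complex.I * (s - 6))) (by rw [Xi_eq]; exact hs0)
      rw [im_eq, abs_neg] at k1
      have := le_abs_self (s.re - 6)
      linarith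
    · intro h z hz
      have key : ∀ s, Lam s = 0 → s.re ≤ 6 + d := fun s hs => by
        by_contra hcon
        push Not at hcon
        exact h s hcon hs
      have k1 := key _ hz
      obtain ⟨s', k2, k3⟩ := hsym _ hz
      have k4 := key _ k2
      rw [k3] at k4
      rw [hre] at k1 k4
      rw [abs_le]
      constructor <;> linarith
  have hrh : (∀ z : ℂ, Xi z = 0 → z.im = 0) ↔ ∀ s : ℂ, Lam s = 0 → s.re = 6 := by
    constructor
    · intro h s hs
      have k1 := h (-(Complex.I * (s - 6))) (by rw [Xi_eq]; exact hs)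
      rw [im_eq] at k1
      linarith
    · intro h z hz
      have k1 := h _ hz
      rw [hre] at k1
      linarith
  refine ⟨fun a ha n => ?_, h1, fun d hd hd2 hs κ hκ => h2 d hd hd2 ((hstrip d).1 hs) κ hκ, ?_, hrh.trans h4⟩
  · have k1 := Pool.Agent.N831.LP.summable hκ hv hP (a := a) (by linarith) n
    rw [e2] at k1
    exact k1
  · simp only [hstrip]
    exact h3

end Pool.Agent.Results.MP_cd509c_nt.LiAsymptoticLaw
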